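import Pool.Agent.Helper13.PC.Low
import Pool.Agent.Helper3.EVC.E07

/-!
# The core with explicit constants, from a bulk with sharp dependence on the sector
-/

set_option autoImplicit false

namespace Pool.Agent.Helper13.PC

open Polynomial EVC Pool.Agent.Helper10.PC

theorem mean_cont {L : ℕ} {P : ℝ[X]} (h : Nice L P) (a c : ℝ) (ha : 0 < a) :
    ContinuousOn (mean P) (Set.Icc a c) := by
  unfold mean
  refine ContinuousOn.div (by fun_prop) (by fun_prop) ?_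
  intro x hx
  exact (h.eval_pos (ha.trans_le hx.1)).ne'

/-- the mean at `600` -/
theorem mean_600 {b κ ε E : ℝ} {L : ℕ} {P : ℝ[X]} (h : HP b κ ε E L P) :
    (P.natDegree : ℝ) - L / 148 ≤ mean P 600 := by
  have h1 := mean_eq h.toNice (r := 600) (by norm_num)
  have hcard : (Z P).card = P.natDegree := by
    unfold Z
    rw [← natDegree_map (algebraMap ℝ ℂ)]
    exact IsAlgClosed.card_roots_eq_natDegree
  have h2 : ∀ s : Multiset ℂ, (∀ ρ ∈ s, ‖ρ‖ ≤ 8) →
      (s.card : ℝ) * (73 / 74) ≤ (s.map fun ρ => p 600 ρ).sum.re := by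
    intro s
    induction s using Multiset.induction_on with
    | empty => simp
    | cons a s ih =>
      intro hs
      rw [Multiset.map_cons, Multiset.sum_cons, Complex.add_re, Multiset.card_cons]
      have h3 := ih fun ρ hρ => hs ρ (Multiset.mem_cons_of_mem hρ)
      have h4 := hs a (Multiset.mem_cons_self _ _)
      have h5 : (592 : ℝ) ≤ ‖((600 : ℝ) : ℂ) - a‖ := by
        have : ‖((600 : ℝ) : ℂ)‖ - ‖a‖ ≤ ‖((600 : ℝ) : ℂ) - a‖ := norm_sub_norm_le _ _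
        rw [Complex.norm_real, Real.norm_of_nonneg (by norm_num)] at this
        linarith
      have hne : ((600 : ℝ) : ℂ) - a ≠ 0 := by
        intro h0
        rw [h0, norm_zero] at h5
        linarith
      have h6 : p 600 a = 1 - -(a / (((600 : ℝ) : ℂ) - a)) := by
        unfold p
        field_simp
        ring
      have h7 : ‖-(a / (((600 : ℝ) : ℂ) - a))‖ ≤ 1 / 74 := by
        rw [norm_neg, norm_div, div_le_div_iff₀ (by linarith) (by norm_num)]
        linarith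
      have h8 : (73 : ℝ) / 74 ≤ (p 600 a).re := by
        rw [h6, Complex.sub_re, Complex.one_re]
        have := (Complex.re_le_norm (-(a / (((600 : ℝ) : ℂ) - a)))).trans h7
        linarith
      push_cast
      linarith
  have h3 := h2 (Z P) h.far
  rw [h1, Complex.ofReal_re, hcard] at h3
  have h4 : 2 * (P.natDegree : ℝ) ≤ L := by exact_mod_cast h.deg
  linarith

/-- existence of the radius with given mean -/
theorem exists_r8 {b κ ε E : ℝ} {L : ℕ} {P : ℝ[X]} (h : HP b κ ε E L P) {k : ℕ} {T : ℝ}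
    (hT : 0 < T) (hTL : T ≤ L) (hm : mean P ((T / L) ^ 2) ≤ k)
    (hk2 : (k : ℝ) + L / 148 < P.natDegree) :
    ∃ r : ℝ, 0 < r ∧ r ≤ 600 ∧ T ≤ L * √r ∧ mean P r = k := by
  have hL : (0 : ℝ) < L := hT.trans_le hTL
  obtain ⟨r₀, hr₀⟩ : ∃ r₀, r₀ = (T / L) ^ 2 := ⟨_, rfl⟩
  have hr₀p : 0 < r₀ := by rw [hr₀]; positivity
  have hr₀1 : r₀ ≤ 1 := by
    rw [hr₀]
    exact pow_le_one₀ (by positivity) ((div_le_one hL).2 hTL)
  have hsq : (L : ℝ) * √r₀ = T := by
    rw [hr₀, Real.sqrt_sq (by positivity)]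
    field_simp
  rw [← hr₀] at hm
  have h6 := mean_600 h
  have hk3 : (k : ℝ) ∈ Set.Icc (mean P r₀) (mean P 600) := ⟨hm, by linarith⟩
  obtain ⟨r, hr, hrk⟩ := intermediate_value_Icc (by linarith : r₀ ≤ 600)
    (mean_cont h.toNice r₀ 600 hr₀p) hk3
  refine ⟨r, hr₀p.trans_le hr.1, hr.2, ?_, hrk⟩
  rw [← hsq]
  exact mul_le_mul_of_nonneg_left (Real.sqrt_le_sqrt hr.1) hL.le

/-- **The core**, from the bulk and the bound of the mean. -/
theorem corePoly8_of
    (hbulk : ∀ b κ ε E : ℝ, AdmP b κ ε E → 1 ≤ κ * b * Real.exp E → ∀ (L : ℕ) (P : ℝ[X]),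
      HP b κ ε E L P → ∀ r : ℝ, 0 < r → r ≤ 600 → 10 ^ 17 * E ≤ L * √r * (κ ^ 3 * b ^ 2) →
      ∀ k : ℕ, 1 ≤ k → mean P r = k → P.coeff (k - 1) * P.coeff (k + 1) < P.coeff k ^ 2)
    (hmean : ∀ b κ ε E : ℝ, AdmP b κ ε E → ∀ (L : ℕ) (P : ℝ[X]), HP b κ ε E L P →
      ∀ r : ℝ, 0 < r → r ≤ 1 → mean P r ≤ 73 * (L * √r) + 100 * E / b)
    {b κ ε E : ℝ} (hA : AdmP b κ ε E) (hE1 : 1 ≤ κ * b * Real.exp E) {L : ℕ} {P : ℝ[X]}
    (h : HP b κ ε E L P) (hL : 10 ^ 32 * E ≤ L * (κ ^ 3 * b ^ 2 * √ε)) {k : ℕ} (hk : 1 ≤ k) :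
    P.coeff (k - 1) * P.coeff (k + 1) ≤ P.coeff k ^ 2 := by
  have hb := hA.hb
  have hb1 := hA.hb1
  have hκ := hA.hκ
  have hκ1 := hA.hκ1
  have hε := hA.hε
  have hε1 := hA.hε1
  have hE := hA.hE
  have hL0 : (0 : ℝ) ≤ L := Nat.cast_nonneg L
  obtain ⟨s, hs⟩ : ∃ s, s = √ε := ⟨_, rfl⟩
  have hs0 : 0 < s := by rw [hs]; exact Real.sqrt_pos.2 hε
  have hs2 : s ^ 2 = ε := by rw [hs]; exact Real.sq_sqrt hε.le
  have hs1 : s ≤ 1 := by nlinarith
  rw [← hs] at hL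
  obtain ⟨q, hq⟩ : ∃ q, q = κ ^ 3 * b ^ 2 := ⟨_, rfl⟩
  have hq0 : 0 < q := by rw [hq]; positivity
  have hq1 : q ≤ 1 := by
    rw [hq]
    exact mul_le_one₀ (pow_le_one₀ hκ.le hκ1) (by positivity) (pow_le_one₀ hb.le hb1)
  have hqb : q ≤ b := by
    rw [hq]
    calc κ ^ 3 * b ^ 2 ≤ 1 * b ^ 2 :=
          mul_le_mul_of_nonneg_right (pow_le_one₀ hκ.le hκ1) (by positivity)
      _ = b * b := by ring
      _ ≤ b * 1 := mul_le_mul_of_nonneg_left hb1 hb.le
      _ = b := mul_one b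
  rw [← hq] at hL
  obtain ⟨T, hT⟩ : ∃ T, T = 10 ^ 17 * E / q := ⟨_, rfl⟩
  have hTq : T * q = 10 ^ 17 * E := by
    rw [hT]
    field_simp
  have hT0 : 0 < T := by rw [hT]; positivity
  have hTE : 10 ^ 17 * E ≤ T := by
    rw [← hTq]
    calc T * q ≤ T * 1 := mul_le_mul_of_nonneg_left hq1 hT0.le
      _ = T := mul_one T
  have hTE2 : 100 * E / b ≤ T := by
    rw [div_le_iff₀ hb]
    have h1 : T * q ≤ T * b := mul_le_mul_of_nonneg_left hqb hT0.le
    have h2 : 100 * E ≤ 10 ^ 17 * E := mul_le_mul_of_nonneg_right (by norm_num) (by linarith)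
    linarith
  -- the threshold
  have hTL : 10 ^ 15 * T ≤ L * s := by
    have h1 : q * (10 ^ 15 * T) ≤ q * (L * s) := by
      calc q * (10 ^ 15 * T) = 10 ^ 15 * (T * q) := by ring
        _ = 10 ^ 32 * E := by rw [hTq]; ring
        _ ≤ L * (q * s) := hL
        _ = q * (L * s) := by ring
    exact le_of_mul_le_mul_left h1 hq0
  have hTL1 : T ≤ L := by
    have h1 : (L : ℝ) * s ≤ L * 1 := mul_le_mul_of_nonneg_left hs1 hL0
    linarith
  by_cases hkJ : (k : ℝ) ≤ 74 * T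
  · refine low hA h ?_ hk ?_
    · rw [← hs]
      linarith
    · rw [← hs]
      linarith
  push Not at hkJ
  by_cases hk2 : (P.natDegree : ℝ) ≤ k + L / 148
  · exact h.top k hk hk2
  push Not at hk2
  have hL' : (0 : ℝ) < L := hT0.trans_le hTL1
  have hm : mean P ((T / L) ^ 2) ≤ k := by
    have h1 := hmean b κ ε E hA L P h ((T / L) ^ 2) (by positivity)
      (pow_le_one₀ (by positivity) ((div_le_one hL').2 hTL1))
    rw [Real.sqrt_sq (by positivity)] at h1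
    have h2 : (L : ℝ) * (T / L) = T := by field_simp
    rw [h2] at h1
    linarith
  obtain ⟨r, hr0, hr6, hTr, hmr⟩ := exists_r8 h hT0 hTL1 hm hk2
  refine (hbulk b κ ε E hA hE1 L P h r hr0 hr6 ?_ k hk hmr).le
  rw [← hq, ← hTq]
  exact mul_le_mul_of_nonneg_right hTr hq0.le

end Pool.Agent.Helper13.PC
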