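import Pool.Agent.Helper76.Conway.LogConc
import Pool.Agent.Helper54.Arb.Seq
import Pool.Agent.Helper49.EV.Top
import Pool.Agent.Helper3.EVC.E05

/-!
# POLY, low coefficients: splitting off the near factor, product with the far factor
-/

set_option autoImplicit false

namespace Pool.Agent.Helper13.PC

open Polynomial Pool.Agent.Helper76.Conway

/-- the near factor: all roots in the disc of radius `R`, in the sector of 60 degrees -/
theorem split_near (R : ℝ) : ∀ (n : ℕ) (P : ℝ[X]), P.natDegree = n → P ≠ 0 →
    (∀ ρ : ℂ, aeval ρ P = 0 → ‖ρ‖ ≤ R → ρ.re ≤ -‖ρ‖ / 2) →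
    ∃ A B : ℝ[X], P = A * B ∧ TP (cz A) ∧ (∀ ρ : ℂ, aeval ρ A = 0 → ‖ρ‖ ≤ R) ∧
      ∀ ρ : ℂ, aeval ρ B = 0 → R < ‖ρ‖ := by
  intro n
  induction n using Nat.strong_induction_on with
  | _ n ih =>
  intro P hn hP hroot
  by_cases hex : ∃ u : ℂ, aeval u P = 0 ∧ ‖u‖ ≤ R
  · obtain ⟨u, hu, huR⟩ := hex
    have hure := hroot u hu huR
    by_cases him : u.im = 0
    · have hur : u = ((u.re : ℝ) : ℂ) := Complex.ext (by simp) (by simp [him])
      have hneg : u.re ≤ 0 := by
        have := norm_nonneg u
        linarith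
      have hr : P.IsRoot u.re := by
        have h2 : aeval ((u.re : ℝ) : ℂ) P = 0 := by rw [← hur]; exact hu
        have h3 : ((P.eval u.re : ℝ) : ℂ) = 0 := by
          rw [← h2, aeval_def]
          exact (eval₂_at_apply (algebraMap ℝ ℂ) u.re).symm
        exact_mod_cast h3
      obtain ⟨P1, hP1⟩ := dvd_iff_isRoot.2 hr
      have hP10 : P1 ≠ 0 := by
        rintro rfl
        rw [mul_zero] at hP1
        exact hP hP1
      have hd1 : P1.natDegree < n := by
        have := natDegree_mul (X_sub_C_ne_zero u.re) hP10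
        rw [← hP1, natDegree_X_sub_C, hn] at this
        omega
      obtain ⟨A, B, hAB, hA, hA2, hB⟩ := ih P1.natDegree hd1 P1 rfl hP10 (fun v hv => hroot v (by
        rw [hP1, map_mul, hv, mul_zero]))
      refine ⟨(X - C u.re) * A, B, by rw [hP1, hAB, mul_assoc], ?_, ?_, hB⟩
      · have := hA.linear (α := -u.re) (by linarith)
        have hfun : cz ((X - C u.re) * A) = fun k => cz A (k - 1) + -u.re * cz A k := by
          funext k
          rw [sub_mul, sub_eq_add_neg, cz_add, cz_X_mul, ← neg_mul, ← C_neg, cz_C_mul]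
        rw [hfun]
        exact this
      · intro v hv
        rw [map_mul] at hv
        rcases mul_eq_zero.1 hv with h | h
        · rw [map_sub, aeval_X, aeval_C] at h
          have h' : v = u := by
            rw [hur]
            exact sub_eq_zero.1 h
          rw [h']
          exact huR
        · exact hA2 v h
    · obtain ⟨P1, hP1⟩ := Polynomial.quadratic_dvd_of_aeval_eq_zero_im_ne_zero P hu him
      set q : ℝ[X] := X ^ 2 - C (2 * u.re) * X + C (‖u‖ ^ 2) with hq
      have hqd : q.natDegree = 2 := by
        rw [hq]; compute_degree!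
      have hq0 : q ≠ 0 := by
        intro h
        rw [h] at hqd
        simp at hqd
      have hP10 : P1 ≠ 0 := by
        rintro rfl
        rw [mul_zero] at hP1
        exact hP hP1
      have hd1 : P1.natDegree < n := by
        have := natDegree_mul hq0 hP10
        rw [← hP1, hqd, hn] at this
        omega
      obtain ⟨A, B, hAB, hA, hA2, hB⟩ := ih P1.natDegree hd1 P1 rfl hP10 (fun v hv => hroot v (by
        rw [hP1, map_mul, hv, mul_zero]))
      have hun := norm_nonneg u
      refine ⟨q * A, B, by rw [hP1, hAB, mul_assoc], ?_, ?_, hB⟩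
      · have := hA.quadratic (p := -2 * u.re) (q := ‖u‖ ^ 2) (by linarith) (by positivity)
          (by nlinarith)
        have hfun : cz (q * A) = fun k => cz A (k - 2) + -2 * u.re * cz A (k - 1) +
            ‖u‖ ^ 2 * cz A k := by
          funext k
          have : q * A = X * (X * A) + (C (-2 * u.re) * (X * A) + C (‖u‖ ^ 2) * A) := by
            rw [hq]
            simp only [C_mul, C_neg, C_ofNat]
            ring
          rw [this, cz_add, cz_add, cz_X_mul, cz_X_mul, cz_C_mul, cz_X_mul, cz_C_mul]
          rw [show k - 1 - 1 = k - 2 by ring]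
          ring
        rw [hfun]
        exact this
      · intro v hv
        rw [map_mul] at hv
        rcases mul_eq_zero.1 hv with h | h
        · have h1 : (v - u) * (v - (starRingEnd ℂ) u) = 0 := by
            have e1 : u + (starRingEnd ℂ) u = ((2 * u.re : ℝ) : ℂ) := by
              rw [Complex.add_conj]
            have e2 : u * (starRingEnd ℂ) u = ((‖u‖ ^ 2 : ℝ) : ℂ) := by
              rw [Complex.mul_conj, Complex.normSq_eq_norm_sq]
            have e3 : aeval v q = v ^ 2 - ((2 * u.re : ℝ) : ℂ) * v + ((‖u‖ ^ 2 : ℝ) : ℂ) := by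
              rw [hq, map_add, map_sub, map_mul, map_pow, aeval_X, aeval_C, aeval_C]
              rfl
            rw [e3, ← e1, ← e2] at h
            rw [← h]
            ring
          rcases mul_eq_zero.1 h1 with h2 | h2
          · rw [sub_eq_zero.1 h2]
            exact huR
          · rw [sub_eq_zero.1 h2, Complex.norm_conj]
            exact huR
        · exact hA2 v h
  · push Not at hex
    refine ⟨1, P, (one_mul P).symm, tp_one, ?_, hex⟩
    intro v hv
    rw [map_one] at hv
    exact absurd hv one_ne_zero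

/-- product of a log-concave polynomial with a polynomial which is log-concave up to `m` -/
theorem lc_mul {A B : ℝ[X]} (hA : TP (cz A)) {m : ℕ} (hB : ∀ j ≤ m, 0 < B.coeff j)
    (hB2 : ∀ j, j + 2 ≤ m → B.coeff j * B.coeff (j + 2) ≤ B.coeff (j + 1) ^ 2) {k : ℕ}
    (hk : 1 ≤ k) (hkm : k + 1 ≤ m) :
    (A * B).coeff (k - 1) * (A * B).coeff (k + 1) ≤ (A * B).coeff k ^ 2 := by
  obtain ⟨a0, a1⟩ := hA
  have hcz : ∀ j : ℕ, cz A (j : ℤ) = A.coeff j := cz_natCast A
  -- the near series
  have hf : Pool.Agent.Helper54.Arb.LR (A : PowerSeries ℝ) (PowerSeries.X * (A : PowerSeries ℝ)) := by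
    intro i j hij
    rcases Nat.lt_or_ge i j with h | h
    · obtain ⟨j', rfl⟩ : ∃ j', j = j' + 1 := ⟨j - 1, by omega⟩
      rcases i with _ | i
      · rw [PowerSeries.coeff_zero_X_mul, mul_zero, PowerSeries.coeff_succ_X_mul,
          Polynomial.coeff_coe, Polynomial.coeff_coe, ← hcz, ← hcz]
        exact mul_nonneg (a0 _) (a0 _)
      · rw [PowerSeries.coeff_succ_X_mul, PowerSeries.coeff_succ_X_mul,
          Polynomial.coeff_coe, Polynomial.coeff_coe, Polynomial.coeff_coe, Polynomial.coeff_coe,
          ← hcz, ← hcz, ← hcz, ← hcz]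
        have := a1 ((i + 1 : ℕ) : ℤ) ((j' : ℕ) : ℤ) (by exact_mod_cast (by omega : i + 1 ≤ j'))
        rw [show ((i + 1 : ℕ) : ℤ) - 1 = ((i : ℕ) : ℤ) by push_cast; ring,
          show ((j' : ℕ) : ℤ) + 1 = ((j' + 1 : ℕ) : ℤ) by push_cast; ring] at this
        linarith
    · obtain rfl : i = j := le_antisymm hij h
      linarith
  -- the far series
  set h : PowerSeries ℝ := PowerSeries.mk fun j => if j ≤ m then B.coeff j else 0 with hh
  have hc : ∀ j, PowerSeries.coeff j h = if j ≤ m then B.coeff j else 0 := fun j => by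
    rw [hh, PowerSeries.coeff_mk]
  have hnn : Pool.Agent.Helper54.Arb.Nn h := by
    intro j
    rw [hc]
    split_ifs with hj
    · exact (hB j hj).le
    · exact le_rfl
  have hchain : ∀ n i : ℕ, i + n + 1 ≤ m →
      B.coeff i * B.coeff (i + n + 1) ≤ B.coeff (i + 1) * B.coeff (i + n) := by
    intro n
    induction n with
    | zero =>
      intro i _
      rw [add_zero, mul_comm]
    | succ n ihn =>
      intro i hi
      have e1 := ihn i (by omega)
      have e2 := hB2 (i + n) (by omega)
      have p1 := hB (i + n) (by omega)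
      have p2 := hB (i + n + 1) (by omega)
      have p3 := hB i (by omega)
      have p4 := hB (i + 1) (by omega)
      rw [show i + (n + 1) + 1 = i + n + 2 by ring, show i + (n + 1) = i + n + 1 by ring]
      -- b_i b_(s+2) b_s b_(s+1) <= b_i b_(s+1)^3 ... divide
      have e3 : (B.coeff i * B.coeff (i + n + 2)) * (B.coeff (i + n) * B.coeff (i + n + 1)) ≤
          (B.coeff (i + 1) * B.coeff (i + n + 1)) * (B.coeff (i + n) * B.coeff (i + n + 1)) := by
        calc (B.coeff i * B.coeff (i + n + 2)) * (B.coeff (i + n) * B.coeff (i + n + 1))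
            = (B.coeff i * B.coeff (i + n + 1)) * (B.coeff (i + n) * B.coeff (i + n + 2)) := by
              ring
          _ ≤ (B.coeff (i + 1) * B.coeff (i + n)) * (B.coeff (i + n + 1) ^ 2) := by
              have p5 := hB (i + n + 2) (by omega)
              exact mul_le_mul e1 e2 (by positivity) (by positivity)
          _ = _ := by ring
      exact le_of_mul_le_mul_right e3 (by positivity)
  have hhP : Pool.Agent.Helper54.Arb.PF h := by
    apply Pool.Agent.Helper54.Arb.PF.of_LR
    intro i j hij
    rcases i with _ | i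
    · rw [PowerSeries.coeff_zero_X_mul, mul_zero]
      exact mul_nonneg (hnn _) ((Pool.Agent.Helper54.Arb.Nn.X.mul hnn) _)
    · obtain ⟨j', rfl⟩ : ∃ j', j = j' + 1 := ⟨j - 1, by omega⟩
      rw [PowerSeries.coeff_succ_X_mul, PowerSeries.coeff_succ_X_mul]
      by_cases hj : j' + 1 ≤ m
      · rw [hc, hc, hc, hc, if_pos hj, if_pos (by omega), if_pos (by omega), if_pos (by omega)]
        obtain ⟨n, rfl⟩ : ∃ n, j' = i + n := ⟨j' - i, by omega⟩
        have := hchain n i (by omega)
        linarith
      · rw [hc (j' + 1), if_neg hj, zero_mul]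
        exact mul_nonneg (hnn _) (hnn _)
  have hfin := hf.mul_right hhP hnn k (k + 1) (by omega)
  have hco : ∀ n ≤ m, PowerSeries.coeff n ((A : PowerSeries ℝ) * h) = (A * B).coeff n := by
    intro n hn
    rw [PowerSeries.coeff_mul, Polynomial.coeff_mul]
    refine Finset.sum_congr rfl fun x hx => ?_
    have hx' := Finset.HasAntidiagonal.mem_antidiagonal.1 hx
    rw [Polynomial.coeff_coe, hc, if_pos (by omega)]
  rw [mul_assoc] at hfin
  obtain ⟨k', rfl⟩ : ∃ k', k = k' + 1 := ⟨k - 1, by omega⟩
  rw [PowerSeries.coeff_succ_X_mul, PowerSeries.coeff_succ_X_mul, hco _ (by omega),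
    hco _ (by omega), hco _ (by omega)] at hfin
  rw [show k' + 1 - 1 = k' by omega]
  nlinarith

end Pool.Agent.Helper13.PC
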