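import Pool.Agent.Helper13.PC.Fac
import Pool.Agent.Helper49.EV.LowCore

/-!
# POLY, low coefficients: the far factor
-/

set_option autoImplicit false

namespace Pool.Agent.Helper13.PC

open Polynomial Pool.Agent.Helper49.ZB

theorem norm_pow_sum_le (s : Multiset ℂ) {ρ : ℝ} (h : ∀ w ∈ s, ‖w‖ ≤ ρ) (m : ℕ) :
    ‖(s.map fun w => w ^ (m + 1)).sum‖ ≤ (s.map fun w => ‖w‖).sum * ρ ^ m := by
  induction s using Multiset.induction_on with
  | empty => simp
  | cons a s ih =>
    rw [Multiset.map_cons, Multiset.sum_cons, Multiset.map_cons, Multiset.sum_cons]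
    have h1 := ih fun w hw => h w (Multiset.mem_cons_of_mem hw)
    have h2 := h a (Multiset.mem_cons_self _ _)
    have h3 : ‖a ^ (m + 1)‖ ≤ ‖a‖ * ρ ^ m := by
      rw [norm_pow, pow_succ, mul_comm]
      exact mul_le_mul_of_nonneg_left (pow_le_pow_left₀ (norm_nonneg _) h2 _) (norm_nonneg _)
    refine (norm_add_le _ _).trans ?_
    rw [add_mul]
    linarith

theorem re_sum_le (s : Multiset ℂ) : (s.map fun w => w.re).sum ≤ (s.map fun w => ‖w‖).sum :=
  Multiset.sum_map_le_sum_map _ _ fun w _ => Complex.re_le_norm w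

theorem re_sum_eq (s : Multiset ℂ) : (s.sum).re = (s.map fun w => w.re).sum := by
  induction s using Multiset.induction_on with
  | empty => simp
  | cons a s ih => rw [Multiset.sum_cons, Multiset.map_cons, Multiset.sum_cons, Complex.add_re, ih]

theorem far_lc {B : ℝ[X]} (hB0 : 0 < B.coeff 0) {R q lam : ℝ} (hR : 0 < R) (hq : 1 ≤ q)
    (hlam0 : 0 < lam) (hroots : ∀ ρ ∈ EVC.Z B, R ≤ ‖ρ‖)
    (hS : ((EVC.Z B).map fun ρ => ‖-ρ⁻¹‖).sum ≤ q * lam)
    (hlam : lam ≤ ((EVC.Z B).map fun ρ => (-ρ⁻¹).re).sum) {j : ℕ} (hj : 32 * q * j ≤ R * lam) :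
    (∀ s ≤ j + 1, 0 < B.coeff s) ∧
      ∀ s, s + 2 ≤ j + 1 → B.coeff s * B.coeff (s + 2) ≤ B.coeff (s + 1) ^ 2 := by
  set Q : ℂ[X] := B.map (algebraMap ℝ ℂ) with hQ
  have hQc : ∀ j, Q.coeff j = ((B.coeff j : ℝ) : ℂ) := fun j => by
    rw [hQ, Polynomial.coeff_map]
    rfl
  have hQ0 : Q.coeff 0 ≠ 0 := by
    rw [hQc]
    exact_mod_cast hB0.ne'
  set W : Multiset ℂ := Q.roots.map fun z => -z⁻¹ with hW
  have hWS : (W.map fun w => ‖w‖).sum = ((EVC.Z B).map fun ρ => ‖-ρ⁻¹‖).sum := by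
    rw [hW, Multiset.map_map]
    rfl
  have hWre : (W.map fun w => w.re).sum = ((EVC.Z B).map fun ρ => (-ρ⁻¹).re).sum := by
    rw [hW, Multiset.map_map]
    rfl
  set S : ℝ := (W.map fun w => ‖w‖).sum with hSd
  have hWn : ∀ w ∈ W, ‖w‖ ≤ R⁻¹ := by
    intro w hw
    rw [hW, Multiset.mem_map] at hw
    obtain ⟨z, hz, rfl⟩ := hw
    rw [norm_neg, norm_inv]
    exact inv_anti₀ hR (hroots z hz)
  set e : ℕ → ℝ := fun j => B.coeff j / B.coeff 0 with he
  have hee : ∀ k, (e k : ℂ) = W.esymm k := by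
    intro k
    have h1 := Pool.Agent.Helper49.EV.coeff_eq Q hQ0 k
    rw [hQc, hQc] at h1
    have h0 : ((B.coeff 0 : ℝ) : ℂ) ≠ 0 := by exact_mod_cast hB0.ne'
    simp only [he]
    rw [Complex.ofReal_div, h1, mul_div_cancel_left₀ _ h0]
  have he0 : e 0 = 1 := div_self hB0.ne'
  have hN : ∀ k : ℕ, ((k : ℝ) + 1) * e (k + 1) =
      ∑ i ∈ Finset.range (k + 1), (-1) ^ i * ((W.map fun w => w ^ (i + 1)).sum).re * e (k - i) := by
    intro k
    have h1 := newton_multiset W k
    rw [← hee (k + 1)] at h1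
    have h5 := congrArg Complex.re h1
    rw [Complex.re_sum] at h5
    have h6 : (((k : ℂ) + 1) * (e (k + 1) : ℂ)).re = ((k : ℝ) + 1) * e (k + 1) := by
      have : ((k : ℂ) + 1) * (e (k + 1) : ℂ) = (((k : ℝ) + 1) * e (k + 1) : ℝ) := by
        push_cast
        ring
      rw [this, Complex.ofReal_re]
    rw [h6] at h5
    rw [h5]
    refine Finset.sum_congr rfl fun i _ => ?_
    rw [← hee (k - i)]
    have h7 : ((-1 : ℂ) ^ i) = (((-1 : ℝ) ^ i : ℝ) : ℂ) := by
      push_cast
      rfl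
    rw [h7, Complex.re_mul_ofReal, Complex.re_ofReal_mul]
  have he1 : e 1 = ((W.map fun w => w ^ (0 + 1)).sum).re := by
    have := hN 0
    simp only [Nat.cast_zero, zero_add, one_mul, Finset.range_one, Finset.sum_singleton, pow_zero,
      Nat.sub_zero, he0, mul_one] at this
    rw [zero_add]
    exact this
  have he1' : e 1 = (W.map fun w => w.re).sum := by
    rw [he1, re_sum_eq, Multiset.map_map]
    congr 1
    refine Multiset.map_congr rfl fun w _ => ?_
    simp
  have hlam1 : lam ≤ e 1 := by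
    rw [he1', hWre]
    exact hlam
  have hSpos : 0 < S := by
    have h1 := re_sum_le W
    rw [← he1'] at h1
    linarith
  have hSq : S ≤ q * e 1 := by
    have h1 : S ≤ q * lam := by
      rw [hWS]
      exact hS
    exact h1.trans (mul_le_mul_of_nonneg_left hlam1 (by linarith))
  have hqpos : 0 < q := by linarith
  have hincr := Pool.Agent.Helper49.EV.incr_gen (e := e)
    (p := fun m => ((W.map fun w => w ^ m).sum).re) (g := S * R) (lam := e 1) (ρ := R⁻¹)
    (c := 1 / (q * R)) (κ := R / (16 * q)) he0 rfl (by positivity) (by positivity) (by positivity)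
    (by
      have : 1 / (q * R) * (S * R) = S / q := by field_simp
      rw [this, div_le_iff₀ hqpos]
      linarith) (by positivity)
    (by
      have : 16 * R⁻¹ ^ 2 * (R / (16 * q)) = 1 / (q * R) := by field_simp
      rw [this])
    (by
      have : 2 * R⁻¹ * (R / (16 * q)) = 1 / (8 * q) := by
        field_simp
        norm_num
      rw [this, div_le_one (by positivity)]
      linarith)
    (by
      intro m
      refine (Complex.abs_re_le_norm _).trans ((norm_pow_sum_le W hWn m).trans (le_of_eq ?_))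
      rw [pow_succ]
      field_simp
      ring) hN j (by
      have h1 : R / (16 * q) * e 1 = R * e 1 / (16 * q) := by ring
      rw [h1, le_div_iff₀ (by positivity)]
      have h2 : R * lam ≤ R * e 1 := mul_le_mul_of_nonneg_left hlam1 hR.le
      linarith)
  obtain ⟨h1, h2⟩ := hincr
  have hpos : ∀ s ≤ j + 1, 0 < B.coeff s := by
    intro s hs
    have := h1 s hs
    simp only [he] at this
    exact (div_pos_iff_of_pos_right hB0).1 this
  refine ⟨hpos, fun s hs => ?_⟩
  have h3 := (h2 (s + 1) (by omega)).1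
  have h4 : e s / e (s + 1) ≤ e (s + 1) / e (s + 1 + 1) := by
    change 0 ≤ e (s + 1) / e (s + 1 + 1) - e s / e (s + 1) at h3
    linarith
  rw [div_le_div_iff₀ (h1 _ (by omega)) (h1 _ (by omega))] at h4
  simp only [he] at h4
  have h5 : B.coeff s * B.coeff (s + 2) = B.coeff 0 ^ 2 *
      (B.coeff s / B.coeff 0 * (B.coeff (s + 1 + 1) / B.coeff 0)) := by
    rw [show s + 1 + 1 = s + 2 by ring]
    field_simp
  have h6 : B.coeff (s + 1) ^ 2 = B.coeff 0 ^ 2 *
      (B.coeff (s + 1) / B.coeff 0 * (B.coeff (s + 1) / B.coeff 0)) := by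
    field_simp
  rw [h5, h6]
  exact mul_le_mul_of_nonneg_left h4 (by positivity)

end Pool.Agent.Helper13.PC
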