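import Pool.Agent.Helper13.PC.Low
import Pool.Agent.Helper3.EVC.E07

/-!
# Few roots near a positive point (Jensen's formula on the disc `|z - r| ≤ 2 δ r`)
-/

set_option autoImplicit false

namespace Pool.Agent.Helper13.PC

open Polynomial EVC Pool.Agent.Helper10.PC

/-- tangent of `cosh` -/
theorem cosh_tangent (u v : ℝ) : Real.cosh u + Real.sinh u * (v - u) ≤ Real.cosh v := by
  have h1 := Real.add_one_le_exp (v - u)
  have h2 := Real.add_one_le_exp (-(v - u))
  have h3 : Real.exp v = Real.exp u * Real.exp (v - u) := by rw [← Real.exp_add]; ring_nf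
  have h4 : Real.exp (-v) = Real.exp (-u) * Real.exp (-(v - u)) := by
    rw [← Real.exp_add]; ring_nf
  rw [Real.cosh_eq, Real.cosh_eq, Real.sinh_eq, h3, h4]
  have h5 := mul_le_mul_of_nonneg_left h1 (Real.exp_pos u).le
  have h6 := mul_le_mul_of_nonneg_left h2 (Real.exp_pos (-u)).le
  linarith

/-- `A` is concave: the tangent at `r`. -/
theorem A_tangent {r : ℝ} (hr : 0 < r) :
    ∃ m : ℝ, 0 ≤ m ∧ m ≤ 1 / (4 * √r) ∧ ∀ x : ℝ, 0 ≤ x → A x ≤ A r + m * (x - r) := by
  have hsq : ∀ x : ℝ, 0 ≤ x → 4 * Real.sinh (A x) ^ 2 = x := by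
    intro x hx
    unfold A
    rw [Real.sinh_arsinh, div_pow, Real.sq_sqrt hx]
    ring
  have hs : Real.sinh (A r) = √r / 2 := by
    unfold A
    rw [Real.sinh_arsinh]
  have hsr : 0 < √r := Real.sqrt_pos.2 hr
  have hA0 : 0 < Real.sinh (A r) := by rw [hs]; positivity
  have hc1 : 1 ≤ Real.cosh (A r) := Real.one_le_cosh _
  have h2 : Real.sinh (2 * A r) = 2 * Real.sinh (A r) * Real.cosh (A r) := Real.sinh_two_mul _
  have h2p : 0 < Real.sinh (2 * A r) := by
    rw [h2]
    positivity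
  refine ⟨1 / (4 * Real.sinh (2 * A r)), by positivity, ?_, ?_⟩
  · apply one_div_le_one_div_of_le (by positivity)
    rw [h2, hs]
    nlinarith
  · intro x hx
    have h3 := cosh_tangent (2 * A r) (2 * A x)
    have hc : ∀ t : ℝ, Real.cosh (2 * t) = 1 + 2 * Real.sinh t ^ 2 := by
      intro t
      rw [Real.cosh_two_mul, Real.cosh_sq]
      ring
    rw [hc, hc] at h3
    have e1 := hsq x hx
    have e2 := hsq r hr.le
    have h4 : Real.sinh (2 * A r) * (2 * A x - 2 * A r) ≤ (x - r) / 2 := by linarith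
    have h5 : 1 / (4 * Real.sinh (2 * A r)) * (x - r) = (x - r) / (4 * Real.sinh (2 * A r)) := by
      ring
    rw [h5]
    have h6 : A x - A r ≤ (x - r) / (4 * Real.sinh (2 * A r)) := by
      rw [le_div_iff₀ (by positivity)]
      linarith
    linarith

/-- the circle average of `∑ log |z - ρ|` -/
theorem avg_log (s : Multiset ℂ) (c : ℂ) {R : ℝ} (hR : R ≠ 0) :
    CircleIntegrable (fun z => (s.map fun ρ => Real.log ‖z - ρ‖).sum) c R ∧
      Real.circleAverage (fun z => (s.map fun ρ => Real.log ‖z - ρ‖).sum) c R =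
        (s.map fun ρ => Real.log R + Real.posLog (R⁻¹ * ‖c - ρ‖)).sum := by
  induction s using Multiset.induction_on with
  | empty =>
    simp only [Multiset.map_zero, Multiset.sum_zero]
    exact ⟨circleIntegrable_const 0 c R, Real.circleAverage_const 0 c R⟩
  | cons a s ih =>
    simp only [Multiset.map_cons, Multiset.sum_cons]
    have h1 : CircleIntegrable (fun z => Real.log ‖z - a‖) c R :=
      circleIntegrable_log_norm_sub_const R
    refine ⟨h1.add ih.1, ?_⟩
    rw [Real.circleAverage_fun_add h1 ih.1, ih.2,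
      circleAverage_log_norm_sub_const_eq_log_radius_add_posLog hR]

/-- the circle average of an affine function of the real part -/
theorem avg_re (a β : ℝ) (c : ℂ) (R : ℝ) :
    CircleIntegrable (fun z : ℂ => a + β * (z - c).re) c R ∧
      Real.circleAverage (fun z : ℂ => a + β * (z - c).re) c R = a := by
  have hcont : Continuous fun z : ℂ => a + β * (z - c).re := by fun_prop
  refine ⟨hcont.continuousOn.circleIntegrable', ?_⟩
  have h1 : DiffContOnCl ℂ (fun z : ℂ => (a : ℂ) + (β : ℂ) * (z - c)) (Metric.ball c |R|) := by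
    apply Differentiable.diffContOnCl
    fun_prop
  have h2 := h1.circleAverage
  have h3 : CircleIntegrable (fun z : ℂ => (a : ℂ) + (β : ℂ) * (z - c)) c R := by
    apply ContinuousOn.circleIntegrable'
    fun_prop
  have h4 := Complex.reCLM.circleAverage_comp_comm h3
  rw [h2] at h4
  have h5 : (Complex.reCLM ∘ fun z : ℂ => (a : ℂ) + (β : ℂ) * (z - c)) =
      fun z : ℂ => a + β * (z - c).re := by
    funext z
    simp [Complex.reCLM_apply]
  rw [h5] at h4
  rw [h4]
  simp [Complex.reCLM_apply]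

theorem norm_aeval_eq (P : ℝ[X]) (z : ℂ) :
    ‖aeval z P‖ = ‖(P.map (algebraMap ℝ ℂ)).leadingCoeff‖ *
      ((Z P).map fun ρ => ‖z - ρ‖).prod := by
  set Q : ℂ[X] := P.map (algebraMap ℝ ℂ) with hQ
  have h1 : Q = C Q.leadingCoeff * (Q.roots.map fun a => (X - C a)).prod :=
    (IsAlgClosed.splits Q).eq_prod_roots
  have h2 := congrArg (fun R : ℂ[X] => ‖R.eval z‖) h1
  simp only [Polynomial.eval_mul, Polynomial.eval_C, Polynomial.eval_multiset_prod,
    Multiset.map_map, Function.comp_def, Polynomial.eval_sub, Polynomial.eval_X] at h2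
  have h3 : Q.eval z = aeval z P := by
    rw [hQ, eval_map_algebraMap]
  rw [h3, norm_mul] at h2
  rw [h2]
  congr 1
  refine (map_multiset_prod (normHom : ℂ →*₀ ℝ) _).trans ?_
  rw [Multiset.map_map]
  rfl

theorem log_prod_norm (s : Multiset ℂ) (z : ℂ) (h : ∀ ρ ∈ s, z ≠ ρ) :
    Real.log ((s.map fun ρ => ‖z - ρ‖).prod) = (s.map fun ρ => Real.log ‖z - ρ‖).sum ∧
      0 < (s.map fun ρ => ‖z - ρ‖).prod := by
  induction s using Multiset.induction_on with
  | empty => simp
  | cons a s ih =>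
    rw [Multiset.map_cons, Multiset.prod_cons, Multiset.map_cons, Multiset.sum_cons]
    obtain ⟨h1, h2⟩ := ih fun ρ hρ => h ρ (Multiset.mem_cons_of_mem hρ)
    have h3 : 0 < ‖z - a‖ := norm_pos_iff.2 (sub_ne_zero.2 (h a (Multiset.mem_cons_self _ _)))
    exact ⟨by rw [Real.log_mul h3.ne' h2.ne', h1], by positivity⟩

open Classical in
/-- **Few roots near `r`.** -/
theorem near_cnt {b κ ε E : ℝ} {L : ℕ} {P : ℝ[X]} (hκ : 0 ≤ κ) (h : HP b κ ε E L P) (hE : 0 ≤ E)
    {r δ : ℝ} (hr : 0 < r) (hδ : 0 < δ) (hδ4 : δ ≤ 1 / 4) :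
    (((Z P).filter (fun ρ => ‖(r : ℂ) - ρ‖ ≤ δ * r)).card : ℝ) ≤ 4 * E + L * √r * δ ^ 2 := by
  have hL0 : (0 : ℝ) ≤ L := Nat.cast_nonneg L
  have hrhs : 0 ≤ 4 * E + L * √r * δ ^ 2 := by positivity
  have hPr := h.toNice.eval_pos hr
  have hP0 : P ≠ 0 := by
    rintro rfl
    simp at hPr
  have hroot : ∀ ρ ∈ Z P, aeval ρ P = 0 := by
    intro ρ hρ
    unfold Z at hρ
    rw [mem_roots (by rwa [Ne, Polynomial.map_eq_zero]), IsRoot, eval_map_algebraMap] at hρ
    exact hρ
  have hmem : ∀ ρ : ℂ, aeval ρ P = 0 → ρ ∈ Z P := by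
    intro ρ h
    unfold Z
    rw [mem_roots (by rwa [Ne, Polynomial.map_eq_zero]), IsRoot, eval_map_algebraMap]
    exact h
  by_cases hr3 : r ≤ 300
  swap
  · push Not at hr3
    have h0 : (Z P).filter (fun ρ => ‖(r : ℂ) - ρ‖ ≤ δ * r) = 0 := by
      rw [Multiset.filter_eq_nil]
      intro ρ hρ hcon
      have h1 := h.far ρ hρ
      have h2 : ‖(r : ℂ)‖ - ‖ρ‖ ≤ ‖(r : ℂ) - ρ‖ := norm_sub_norm_le _ _
      rw [Complex.norm_real, Real.norm_of_nonneg hr.le] at h2
      have h3 : δ * r ≤ 1 / 4 * r := mul_le_mul_of_nonneg_right hδ4 hr.le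
      linarith
    rw [h0, Multiset.card_zero, Nat.cast_zero]
    exact hrhs
  -- the radius
  have hδr : 0 < δ * r := by positivity
  obtain ⟨R, hR, hRn⟩ := (Set.Icc_infinite (show 19 / 10 * (δ * r) < 2 * (δ * r) by
    linarith)).exists_notMem_finset ((Z P).toFinset.image fun ρ => ‖(r : ℂ) - ρ‖)
  have hR0 : 0 < R := lt_of_lt_of_le (by positivity) hR.1
  have hR2 : R ≤ 2 * (δ * r) := hR.2
  have hRr : R ≤ r / 2 := by
    have h3 : δ * r ≤ 1 / 4 * r := mul_le_mul_of_nonneg_right hδ4 hr.le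
    linarith
  have hns : ∀ ρ ∈ Z P, ‖(r : ℂ) - ρ‖ ≠ R := by
    intro ρ hρ he
    apply hRn
    rw [Finset.mem_image]
    exact ⟨ρ, Multiset.mem_toFinset.2 hρ, he⟩
  set l : ℝ := ‖(P.map (algebraMap ℝ ℂ)).leadingCoeff‖ with hl
  have hl0 : 0 < l := by
    rw [hl]
    apply norm_pos_iff.2
    rw [Ne, leadingCoeff_eq_zero, Polynomial.map_eq_zero]
    exact hP0
  obtain ⟨m, hm0, hm1, hm⟩ := A_tangent hr
  obtain ⟨hint, havg⟩ := avg_log (Z P) (r : ℂ) hR0.ne'
  obtain ⟨hint2, havg2⟩ := avg_re (L * A r + L * m * (R ^ 2 / (2 * r)) + E - Real.log l) (L * m)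
    (r : ℂ) R
  -- the upper bound on the circle
  have hle : ∀ z ∈ Metric.sphere (r : ℂ) |R|, ((Z P).map fun ρ => Real.log ‖z - ρ‖).sum ≤
      (L * A r + L * m * (R ^ 2 / (2 * r)) + E - Real.log l) + L * m * (z - (r : ℂ)).re := by
    intro z hz
    rw [abs_of_pos hR0, mem_sphere_iff_norm] at hz
    have hzρ : ∀ ρ ∈ Z P, z ≠ ρ := by
      rintro ρ hρ rfl
      apply hns z hρ
      rw [← hz, norm_sub_rev]
    obtain ⟨e1, e2⟩ := log_prod_norm (Z P) z hzρ
    have e3 := norm_aeval_eq P z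
    rw [← hl] at e3
    have hz1 : ‖z‖ ≤ r + R := by
      have : z = (r : ℂ) + (z - r) := by ring
      rw [this]
      refine (norm_add_le _ _).trans ?_
      rw [Complex.norm_real, Real.norm_of_nonneg hr.le, hz]
    have hz2 : r - R ≤ ‖z‖ := by
      have h2 : ‖(r : ℂ)‖ - ‖(r : ℂ) - z‖ ≤ ‖z‖ := by
        have := norm_sub_norm_le (r : ℂ) ((r : ℂ) - z)
        rwa [sub_sub_cancel] at this
      rw [Complex.norm_real, Real.norm_of_nonneg hr.le, norm_sub_rev, hz] at h2
      exact h2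
    have hz0 : 0 < ‖z‖ := by linarith
    have h4 := h.hi ‖z‖ z.arg hz0 (by linarith) (Complex.abs_arg_le_pi z)
    have h5 : pt ‖z‖ z.arg = z := by
      unfold pt
      exact Complex.norm_mul_exp_arg_mul_I z
    rw [h5] at h4
    have h6 : ‖aeval z P‖ ≤ Real.exp (L * A ‖z‖ + E) := by
      refine h4.trans (Real.exp_le_exp.2 ?_)
      have : 0 ≤ κ * (L * √‖z‖) * (1 - Real.cos z.arg) := by
        have := Real.cos_le_one z.arg
        have h7 : 0 ≤ 1 - Real.cos z.arg := by linarith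
        positivity
      linarith
    have h7 := Real.log_le_log (by rw [e3]; positivity) h6
    rw [Real.log_exp, e3, Real.log_mul hl0.ne' e2.ne', e1] at h7
    have h8 := hm ‖z‖ hz0.le
    have h9 : ‖z‖ - r ≤ (z - (r : ℂ)).re + R ^ 2 / (2 * r) := by
      have a1 : ‖z‖ ^ 2 = r ^ 2 + 2 * r * (z - (r : ℂ)).re + R ^ 2 := by
        have a2 : ‖z‖ ^ 2 = z.re ^ 2 + z.im ^ 2 := by
          rw [← Complex.normSq_eq_norm_sq, Complex.normSq_apply]
          ring
        have a3 : R ^ 2 = (z.re - r) ^ 2 + z.im ^ 2 := by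
          rw [← hz, ← Complex.normSq_eq_norm_sq, Complex.normSq_apply]
          simp only [Complex.sub_re, Complex.sub_im, Complex.ofReal_re, Complex.ofReal_im, sub_zero]
          ring
        rw [a2, a3, Complex.sub_re, Complex.ofReal_re]
        ring
      have a4 : (‖z‖ - r) * (2 * r) ≤ ((z - (r : ℂ)).re + R ^ 2 / (2 * r)) * (2 * r) := by
        have a5 : ((z - (r : ℂ)).re + R ^ 2 / (2 * r)) * (2 * r) =
            2 * r * (z - (r : ℂ)).re + R ^ 2 := by field_simp
        rw [a5]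
        nlinarith [sq_nonneg (‖z‖ - r)]
      exact le_of_mul_le_mul_right a4 (by positivity)
    have h10 : (L : ℝ) * A ‖z‖ ≤ L * (A r + m * ((z - (r : ℂ)).re + R ^ 2 / (2 * r))) := by
      refine mul_le_mul_of_nonneg_left (h8.trans ?_) hL0
      have := mul_le_mul_of_nonneg_left h9 hm0
      linarith
    have h11 : (L : ℝ) * (A r + m * ((z - (r : ℂ)).re + R ^ 2 / (2 * r))) =
        L * A r + L * m * (R ^ 2 / (2 * r)) + L * m * (z - (r : ℂ)).re := by ring
    rw [h11] at h10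
    linarith
  have hmono := Real.circleAverage_mono hint hint2 hle
  rw [havg, havg2] at hmono
  -- the value at the centre
  have hrρ : ∀ ρ ∈ Z P, (r : ℂ) ≠ ρ := by
    rintro ρ hρ rfl
    have h1 := hroot _ hρ
    have e1 : aeval (r : ℂ) P = ((P.eval r : ℝ) : ℂ) :=
      aeval_algebraMap_apply_eq_algebraMap_eval r P
    rw [e1] at h1
    have : P.eval r = 0 := by exact_mod_cast h1
    linarith
  have hcen : L * A r - E ≤ Real.log l + ((Z P).map fun ρ => Real.log ‖(r : ℂ) - ρ‖).sum := by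
    obtain ⟨e1, e2⟩ := log_prod_norm (Z P) (r : ℂ) hrρ
    have e3 := eval_eq r hPr.le
    rw [← hl] at e3
    have h1 := h.lo r hr (by linarith)
    have h2 := Real.log_le_log (Real.exp_pos _) h1
    rw [Real.log_exp, e3, Real.log_mul hl0.ne' e2.ne', e1] at h2
    exact h2
  -- the roots near `r`
  have hcount : (((Z P).filter (fun ρ => ‖(r : ℂ) - ρ‖ ≤ δ * r)).card : ℝ) * (1 / 2) +
      ((Z P).map fun ρ => Real.log ‖(r : ℂ) - ρ‖).sum ≤
      ((Z P).map fun ρ => Real.log R + Real.posLog (R⁻¹ * ‖(r : ℂ) - ρ‖)).sum := by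
    have key : ∀ s : Multiset ℂ, (∀ ρ ∈ s, (r : ℂ) ≠ ρ) →
        ((s.filter (fun ρ => ‖(r : ℂ) - ρ‖ ≤ δ * r)).card : ℝ) * (1 / 2) +
          (s.map fun ρ => Real.log ‖(r : ℂ) - ρ‖).sum ≤
        (s.map fun ρ => Real.log R + Real.posLog (R⁻¹ * ‖(r : ℂ) - ρ‖)).sum := by
      intro s
      induction s using Multiset.induction_on with
      | empty => simp
      | cons a s ih =>
        intro hs
        have h1 := ih fun ρ hρ => hs ρ (Multiset.mem_cons_of_mem hρ)
        have h2 : 0 < ‖(r : ℂ) - a‖ :=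
          norm_pos_iff.2 (sub_ne_zero.2 (hs a (Multiset.mem_cons_self _ _)))
        rw [Multiset.map_cons, Multiset.sum_cons, Multiset.map_cons, Multiset.sum_cons]
        by_cases hc : ‖(r : ℂ) - a‖ ≤ δ * r
        · rw [Multiset.filter_cons_of_pos (p := fun ρ : ℂ => ‖(r : ℂ) - ρ‖ ≤ δ * r) s hc,
            Multiset.card_cons]
          have h3 : (0 : ℝ) ≤ Real.posLog (R⁻¹ * ‖(r : ℂ) - a‖) := Real.posLog_nonneg
          have h4 : (1 : ℝ) / 2 + Real.log ‖(r : ℂ) - a‖ ≤ Real.log R := by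
            have h5 : Real.log (19 / 10 * ‖(r : ℂ) - a‖) ≤ Real.log R := by
              apply Real.log_le_log (by positivity)
              refine le_trans ?_ hR.1
              exact mul_le_mul_of_nonneg_left hc (by norm_num)
            rw [Real.log_mul (by norm_num) h2.ne'] at h5
            have h6 : (1 : ℝ) / 2 ≤ Real.log (19 / 10) := by
              rw [Real.le_log_iff_exp_le (by norm_num)]
              have h7 : Real.exp (1 / 2) ^ 2 = Real.exp 1 := by
                rw [← Real.exp_nat_mul]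
                norm_num
              have h8 := Real.exp_one_lt_d9
              have h9 := Real.exp_pos (1 / 2 : ℝ)
              nlinarith
            linarith
          push_cast
          linarith
        · rw [Multiset.filter_cons_of_neg (p := fun ρ : ℂ => ‖(r : ℂ) - ρ‖ ≤ δ * r) s hc]
          have h3 : Real.log (R⁻¹ * ‖(r : ℂ) - a‖) ≤ Real.posLog (R⁻¹ * ‖(r : ℂ) - a‖) :=
            le_max_right _ _
          rw [Real.log_mul (inv_ne_zero hR0.ne') h2.ne', Real.log_inv] at h3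
          linarith
    exact key (Z P) hrρ
  have hfin : (L : ℝ) * m * (R ^ 2 / (2 * r)) ≤ L * √r * δ ^ 2 / 2 := by
    have hsr : 0 < √r := Real.sqrt_pos.2 hr
    have h1 : R ^ 2 ≤ (2 * (δ * r)) ^ 2 := pow_le_pow_left₀ hR0.le hR2 2
    have h2 : R ^ 2 / (2 * r) ≤ 2 * δ ^ 2 * r := by
      rw [div_le_iff₀ (by positivity)]
      linarith
    have h3 : m * (R ^ 2 / (2 * r)) ≤ 1 / (4 * √r) * (2 * δ ^ 2 * r) :=
      mul_le_mul hm1 h2 (by positivity) (by positivity)
    have h4 : 1 / (4 * √r) * (2 * δ ^ 2 * r) = √r * δ ^ 2 / 2 := by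
      have : r = √r * √r := (Real.mul_self_sqrt hr.le).symm
      rw [div_mul_eq_mul_div, one_mul, div_eq_div_iff (by positivity) (by norm_num)]
      calc 2 * δ ^ 2 * r * 2 = 4 * δ ^ 2 * r := by ring
        _ = 4 * δ ^ 2 * (√r * √r) := by rw [← this]
        _ = _ := by ring
    have h5 := mul_le_mul_of_nonneg_left (h3.trans h4.le) hL0
    linarith
  linarith

end Pool.Agent.Helper13.PC
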