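import Pool.Agent.Helper2.PC.Bulk8
import Pool.Agent.Helper13.PC.Core8
import Pool.Agent.Helper13.PC.Jensen

/-!
# The core with sharp exponents and explicit constants
-/

set_option autoImplicit false

namespace Pool.Agent.Helper13.PC

open Polynomial EVC Pool.Agent.Helper10.PC

/-- **The core**: all coefficients are log-concave as soon as `10 ^ 32 * E ≤ L * (κ ^ 3 * b ^ 2 * √ε)`. -/
theorem corePoly8 {b κ ε E : ℝ} (hA : AdmP b κ ε E) (hE1 : 1 ≤ κ * b * Real.exp E) {L : ℕ}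
    {P : ℝ[X]} (h : HP b κ ε E L P) (hL : 10 ^ 32 * E ≤ L * (κ ^ 3 * b ^ 2 * √ε)) {k : ℕ}
    (hk : 1 ≤ k) : P.coeff (k - 1) * P.coeff (k + 1) ≤ P.coeff k ^ 2 := by
  refine corePoly8_of ?_ ?_ hA hE1 h hL hk
  · intro b κ ε E hA hE1 L P h r hr h6 hy k hk hmean
    exact Pool.Agent.Helper2.PC.bulk8_of hA hE1 h hr h6
      (fun δ hδ hδ4 => near_cnt hA.hκ.le h (zero_le_one.trans hA.hE) hr hδ hδ4) hy hk hmean
  · intro b κ ε E hA L P h r hr _
    exact Pool.Agent.Helper2.PC.mean_le_of hA h hr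
      (fun δ hδ hδ4 => near_cnt hA.hκ.le h (zero_le_one.trans hA.hE) hr hδ hδ4)

end Pool.Agent.Helper13.PC
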