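import Pool.Agent.Helper13.PC.Far
import Pool.Agent.Helper10.PC.Defs

/-!
# POLY, low coefficients: counting of the roots, the final statement
-/

set_option autoImplicit false

namespace Pool.Agent.Helper13.PC

open Polynomial EVC

/-! ### Counting -/

theorem A_le {r : ℝ} (hr : 0 ≤ r) : A r ≤ √r / 2 := by
  unfold A
  have h3 : 0 ≤ Real.arsinh (√r / 2) := Real.arsinh_nonneg_iff.2 (by positivity)
  have h4 := Real.self_le_sinh_iff.2 h3
  rwa [Real.sinh_arsinh] at h4

theorem le_A {r : ℝ} (hr : 0 ≤ r) (hr1 : r ≤ 1) : √r / 4 ≤ A r := by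
  unfold A
  have h0 : 0 ≤ √r := Real.sqrt_nonneg r
  have h1 : √r ≤ 1 := Real.sqrt_le_one.2 hr1
  have h2 := Pool.Agent.Helper49.EV.sinh_le_two (x := √r / 4) (by positivity) (by linarith)
  have h3 : Real.sinh (√r / 4) ≤ Real.sinh (Real.arsinh (√r / 2)) := by
    rw [Real.sinh_arsinh]
    linarith
  exact Real.sinh_le_sinh.1 h3

theorem cnt_le {E : ℝ} {L : ℕ} {P : ℝ[X]} (hN : Nice L P)
    (hi : ∀ r : ℝ, 0 < r → r ≤ 600 → P.eval r ≤ Real.exp (L * A r + E)) {s : ℝ} (hs : 0 < s)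
    (h2 : 2 * s ≤ 600) : (cnt P s : ℝ) ≤ 2 * (L * √s + E) := by
  have hj := jensen hN hs
  have hle := hj.trans (hi (2 * s) (by positivity) h2)
  have hlg := Real.log_le_log (by positivity) hle
  rw [Real.log_exp, Real.log_pow] at hlg
  have hA := A_le (r := 2 * s) (by positivity)
  have hsq : √(2 * s) / 2 ≤ √s := by
    have h3 : √(2 * s) ≤ √(4 * s) := Real.sqrt_le_sqrt (by linarith)
    have h4 : √(4 * s) = 2 * √s := by
      rw [Real.sqrt_mul (by norm_num)]
      congr 1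
      rw [show (4 : ℝ) = 2 ^ 2 by norm_num]
      exact Real.sqrt_sq (by norm_num)
    linarith
  have hL0 : (0 : ℝ) ≤ L := Nat.cast_nonneg L
  have h5 : (L : ℝ) * A (2 * s) ≤ L * √s := mul_le_mul_of_nonneg_left (hA.trans hsq) hL0
  have h6 : (cnt P s : ℝ) * Real.log 2 ≤ L * √s + E := by linarith
  have hl2 : (1 : ℝ) / 2 ≤ Real.log 2 := by
    have := Real.log_two_gt_d9
    linarith
  have h8 : (cnt P s : ℝ) * (1 / 2) ≤ (cnt P s : ℝ) * Real.log 2 :=
    mul_le_mul_of_nonneg_left hl2 (Nat.cast_nonneg _)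
  linarith

theorem card_Z_le {L : ℕ} {P : ℝ[X]} (h : Nice L P) : 2 * (Z P).card ≤ L := by
  have h1 : (Z P).card ≤ P.natDegree := by
    unfold Z
    exact (card_roots' _).trans natDegree_map_le
  have := h.deg
  omega

theorem M_le_card (P : ℝ[X]) (r : ℝ) : M P r ≤ (Z P).card := by
  unfold M
  have h1 := Multiset.sum_le_card_nsmul ((Z P).map fun ρ => min 1 (r / ‖ρ‖)) 1 (by
    intro x hx
    obtain ⟨ρ, _, rfl⟩ := Multiset.mem_map.1 hx
    exact min_le_left _ _)
  rw [Multiset.card_map, nsmul_eq_mul, mul_one] at h1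
  exact h1

open Classical in
theorem M_step (P : ℝ[X]) {r : ℝ} (hr : 0 < r) :
    M P r ≤ cnt P (4 * r) + 1 / 4 * M P (4 * r) := by
  have key : ∀ S : Multiset ℂ, (S.map fun ρ => min 1 (r / ‖ρ‖)).sum ≤
      ((S.filter (fun ρ => ‖ρ‖ ≤ 4 * r)).card : ℝ) +
        1 / 4 * (S.map fun ρ => min 1 (4 * r / ‖ρ‖)).sum := by
    intro S
    induction S using Multiset.induction with
    | empty => simp
    | cons ρ S ih =>
      rw [Multiset.map_cons, Multiset.sum_cons, Multiset.map_cons, Multiset.sum_cons]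
      have hnn : 0 ≤ 4 * r / ‖ρ‖ := by positivity
      by_cases hρ : ‖ρ‖ ≤ 4 * r
      · rw [Multiset.filter_cons_of_pos (p := fun ρ : ℂ => ‖ρ‖ ≤ 4 * r) S hρ, Multiset.card_cons]
        push_cast
        have h1 : min 1 (r / ‖ρ‖) ≤ 1 := min_le_left _ _
        have h2 : 0 ≤ min 1 (4 * r / ‖ρ‖) := le_min zero_le_one hnn
        linarith
      · rw [Multiset.filter_cons_of_neg (p := fun ρ : ℂ => ‖ρ‖ ≤ 4 * r) S hρ]
        push Not at hρ
        have hρ0 : 0 < ‖ρ‖ := lt_trans (by positivity) hρ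
        have h1 : min 1 (4 * r / ‖ρ‖) = 4 * r / ‖ρ‖ := by
          apply min_eq_right
          rw [div_le_one hρ0]
          exact hρ.le
        have h2 : min 1 (r / ‖ρ‖) ≤ r / ‖ρ‖ := min_le_right _ _
        have h3 : 1 / 4 * (4 * r / ‖ρ‖) = r / ‖ρ‖ := by ring
        rw [h1]
        linarith
  exact key (Z P)

theorem sqrt_four_mul (r : ℝ) : √(4 * r) = 2 * √r := by
  rw [Real.sqrt_mul (by norm_num)]
  congr 1
  rw [show (4 : ℝ) = 2 ^ 2 by norm_num]
  exact Real.sqrt_sq (by norm_num)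

theorem M_le {E : ℝ} {L : ℕ} {P : ℝ[X]} (hE : 0 ≤ E) (hN : Nice L P)
    (hi : ∀ r : ℝ, 0 < r → r ≤ 600 → P.eval r ≤ Real.exp (L * A r + E)) {r : ℝ} (hr : 0 < r) :
    M P r ≤ 8 * (L * √r + E) := by
  have hL0 : (0 : ℝ) ≤ L := Nat.cast_nonneg L
  have base : ∀ r : ℝ, 1 / 64 ≤ r → M P r ≤ 8 * (L * √r + E) := by
    intro r hr'
    have h1 := M_le_card P r
    have h2 : 2 * ((Z P).card : ℝ) ≤ L := by exact_mod_cast card_Z_le hN
    have h3 : (1 : ℝ) / 8 ≤ √r := by
      apply Real.le_sqrt_of_sq_le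
      linarith
    have h4 : (L : ℝ) * (1 / 8) ≤ L * √r := mul_le_mul_of_nonneg_left h3 hL0
    linarith
  have key : ∀ n : ℕ, ∀ r : ℝ, 0 < r → 1 / 64 ≤ 4 ^ n * r → M P r ≤ 8 * (L * √r + E) := by
    intro n
    induction n with
    | zero =>
      intro r _ h3
      rw [pow_zero, one_mul] at h3
      exact base r h3
    | succ n ih =>
      intro r h1 h3
      by_cases h4 : 1 / 64 ≤ r
      · exact base r h4
      · push Not at h4
        have h5 := ih (4 * r) (by linarith) (by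
          rw [pow_succ] at h3
          linarith)
        have h6 := M_step P h1
        have h7 := cnt_le hN hi (s := 4 * r) (by linarith) (by linarith)
        rw [sqrt_four_mul] at h5 h7
        have h8 : 0 ≤ (L : ℝ) * √r := by positivity
        linarith
  obtain ⟨n, hn⟩ := pow_unbounded_of_one_lt (1 / 64 / r) (show (1 : ℝ) < 4 by norm_num)
  refine key n r hr ?_
  rw [div_lt_iff₀ hr] at hn
  exact hn.le

/-! ### The value at a positive point -/

theorem eval_eq {P : ℝ[X]} (x : ℝ) (hx : 0 ≤ P.eval x) :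
    P.eval x = ‖(P.map (algebraMap ℝ ℂ)).leadingCoeff‖ *
      ((Z P).map fun ρ => ‖(x : ℂ) - ρ‖).prod := by
  set Q : ℂ[X] := P.map (algebraMap ℝ ℂ) with hQ
  have h1 : Q = C Q.leadingCoeff * (Q.roots.map fun a => (X - C a)).prod :=
    (IsAlgClosed.splits Q).eq_prod_roots
  have h2 := congrArg (fun R : ℂ[X] => ‖R.eval (x : ℂ)‖) h1
  simp only [Polynomial.eval_mul, Polynomial.eval_C, Polynomial.eval_multiset_prod,
    Multiset.map_map, Function.comp_def, Polynomial.eval_sub, Polynomial.eval_X] at h2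
  have h3 : Q.eval (x : ℂ) = ((P.eval x : ℝ) : ℂ) := by
    rw [hQ]
    exact Polynomial.eval_map_apply (algebraMap ℝ ℂ) x
  rw [h3, Complex.norm_real, Real.norm_of_nonneg hx, norm_mul] at h2
  rw [h2]
  congr 1
  refine (map_multiset_prod (normHom : ℂ →*₀ ℝ) _).trans ?_
  rw [Multiset.map_map]
  rfl

theorem prod_le (s : Multiset ℂ) (f h g : ℂ → ℝ) (h0 : ∀ ρ, 0 ≤ f ρ)
    (hle : ∀ ρ ∈ s, f ρ ≤ h ρ * Real.exp (g ρ)) :
    (s.map f).prod ≤ (s.map h).prod * Real.exp ((s.map g).sum) := by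
  induction s using Multiset.induction_on with
  | empty => simp
  | cons a s ih =>
    rw [Multiset.map_cons, Multiset.prod_cons, Multiset.map_cons, Multiset.prod_cons,
      Multiset.map_cons, Multiset.sum_cons, Real.exp_add]
    have h1 := ih fun ρ hρ => hle ρ (Multiset.mem_cons_of_mem hρ)
    have h2 := hle a (Multiset.mem_cons_self _ _)
    have h3 : 0 ≤ (s.map f).prod := Multiset.prod_nonneg (by
      intro x hx
      obtain ⟨y, _, rfl⟩ := Multiset.mem_map.1 hx
      exact h0 y)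
    calc f a * (s.map f).prod ≤ (h a * Real.exp (g a)) *
          ((s.map h).prod * Real.exp ((s.map g).sum)) :=
          mul_le_mul h2 h1 h3 ((h0 a).trans h2)
      _ = _ := by ring

/-! ### One root -/

/-- a root in the sector of 60 degrees -/
theorem sector {ρ : ℂ} (h1 : ρ.re < 0) (h2 : ρ.im ^ 2 ≤ 3 * ρ.re ^ 2) : ρ.re ≤ -‖ρ‖ / 2 := by
  have h3 : ‖ρ‖ ^ 2 = ρ.re ^ 2 + ρ.im ^ 2 := by
    rw [← Complex.normSq_eq_norm_sq, Complex.normSq_apply]
    ring
  have h4 := norm_nonneg ρ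
  by_contra hcon
  push Not at hcon
  have h5 : -ρ.re < ‖ρ‖ / 2 := by linarith
  have h6 : (-ρ.re) ^ 2 < (‖ρ‖ / 2) ^ 2 := pow_lt_pow_left₀ h5 (by linarith) two_ne_zero
  nlinarith

theorem re_neg_inv {ρ : ℂ} : (-ρ⁻¹).re = -ρ.re / ‖ρ‖ ^ 2 := by
  rw [Complex.neg_re, Complex.inv_re, Complex.normSq_eq_norm_sq]
  ring

/-- **Low coefficients.** -/
theorem lowP {E ε : ℝ} {L : ℕ} {P : ℝ[X]} (hE : 1 ≤ E) (hε : 0 < ε) (hε1 : ε ≤ 1)
    (hN : Nice L P) (near : ∀ ρ ∈ Z P, ‖ρ‖ < ε → ρ.re < 0 ∧ ρ.im ^ 2 ≤ 3 * ρ.re ^ 2)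
    (lo : ∀ r : ℝ, 0 < r → r ≤ 600 → Real.exp (L * A r - E) ≤ P.eval r)
    (hi : ∀ r : ℝ, 0 < r → r ≤ 600 → P.eval r ≤ Real.exp (L * A r + E))
    (hEL : 10 ^ 13 * E ≤ L * √ε) {k : ℕ} (hk : 1 ≤ k) (hkL : 10 ^ 13 * k ≤ L * √ε) :
    P.coeff (k - 1) * P.coeff (k + 1) ≤ P.coeff k ^ 2 := by
  classical
  have hL0 : (0 : ℝ) ≤ L := Nat.cast_nonneg L
  obtain ⟨u, hu⟩ : ∃ u : ℝ, u = √ε := ⟨_, rfl⟩
  have hu0 : 0 < u := by rw [hu]; exact Real.sqrt_pos.2 hε
  have hu2 : u ^ 2 = ε := by rw [hu]; exact Real.sq_sqrt hε.le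
  rw [← hu] at hEL hkL
  set R : ℝ := ε / 10 ^ 12 with hRd
  have hR : 0 < R := by positivity
  have hRs : √R = u / 10 ^ 6 := by
    rw [hRd, ← hu2, show u ^ 2 / 10 ^ 12 = (u / 10 ^ 6) ^ 2 by ring]
    exact Real.sqrt_sq (by positivity)
  have hRε : R < ε := by
    rw [hRd, div_lt_iff₀ (by norm_num)]
    linarith
  have hPpos : ∀ r : ℝ, 0 < r → r ≤ 600 → 0 < P.eval r := fun r h1 h2 =>
    (Real.exp_pos _).trans_le (lo r h1 h2)
  have hP0 : P ≠ 0 := by
    rintro rfl
    have := hN.one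
    simp at this
    linarith
  have hmem : ∀ ρ : ℂ, aeval ρ P = 0 → ρ ∈ Z P := by
    intro ρ h
    unfold Z
    rw [mem_roots (by rwa [Ne, Polynomial.map_eq_zero]), IsRoot, eval_map_algebraMap]
    exact h
  have hmem' : ∀ (Q : ℝ[X]) (ρ : ℂ), ρ ∈ Z Q → aeval ρ Q = 0 := by
    intro Q ρ h
    unfold Z at h
    by_cases hQ : Q.map (algebraMap ℝ ℂ) = 0
    · rw [hQ, roots_zero] at h
      exact absurd h (Multiset.notMem_zero _)
    · rw [mem_roots hQ, IsRoot, eval_map_algebraMap] at h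
      exact h
  obtain ⟨F, B, hFB, hTP, hF, hB⟩ := split_near R P.natDegree P rfl hP0 (by
    intro ρ h1 h2
    obtain ⟨h3, h4⟩ := near ρ (hmem ρ h1) (lt_of_le_of_lt h2 hRε)
    exact sector h3 h4)
  have hF0 : F ≠ 0 := by
    rintro rfl
    rw [zero_mul] at hFB
    exact hP0 hFB
  have hB0 : B ≠ 0 := by
    rintro rfl
    rw [mul_zero] at hFB
    exact hP0 hFB
  have hZ : Z P = Z F + Z B := by
    unfold Z
    rw [hFB, Polynomial.map_mul, roots_mul]
    exact mul_ne_zero (by rwa [Ne, Polynomial.map_eq_zero]) (by rwa [Ne, Polynomial.map_eq_zero])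
  have hZF : ∀ ρ ∈ Z F, ‖ρ‖ ≤ R := fun ρ h => hF ρ (hmem' F ρ h)
  have hZB : ∀ ρ ∈ Z B, R < ‖ρ‖ := fun ρ h => hB ρ (hmem' B ρ h)
  have hZFP : ∀ ρ ∈ Z F, ρ ∈ Z P := fun ρ h => by rw [hZ]; exact Multiset.mem_add.2 (Or.inl h)
  have hZBP : ∀ ρ ∈ Z B, ρ ∈ Z P := fun ρ h => by rw [hZ]; exact Multiset.mem_add.2 (Or.inr h)
  -- number of near roots
  have hcard : ((Z F).card : ℝ) ≤ 2 * (L * √R + E) := by
    have h1 := cnt_le hN hi hR (by linarith)
    refine le_trans ?_ h1
    have h2 : (Z F).card ≤ cnt P R := by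
      unfold cnt
      rw [hZ, Multiset.filter_add, Multiset.card_add, Multiset.filter_eq_self.2 hZF]
      omega
    exact_mod_cast h2
  -- the far sum
  set S : ℝ := ((Z B).map fun ρ => ‖ρ‖⁻¹).sum with hS
  obtain ⟨t, ht⟩ : ∃ t : ℝ, t = 65536 * R := ⟨_, rfl⟩
  have ht0 : 0 < t := by rw [ht]; positivity
  have ht1 : t ≤ 1 := by
    rw [ht, hRd]
    linarith
  have hts : √t = 256 * √R := by
    rw [ht, show (65536 : ℝ) * R = 256 ^ 2 * R by norm_num, Real.sqrt_mul (by norm_num),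
      Real.sqrt_sq (by norm_num)]
  have hratio : P.eval t ≤ P.eval R * Real.exp (12 * (Z F).card + 2 * t * S) := by
    have e1 := eval_eq t (hPpos t ht0 (by linarith)).le
    have e2 := eval_eq R (hPpos R hR (by linarith)).le
    have e3 : ((Z P).map fun ρ => ‖(t : ℂ) - ρ‖).prod ≤
        ((Z P).map fun ρ => ‖(R : ℂ) - ρ‖).prod * Real.exp (12 * (Z F).card + 2 * t * S) := by
      rw [hZ, Multiset.map_add, Multiset.prod_add, Multiset.map_add, Multiset.prod_add,
        Real.exp_add]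
      have f1 := prod_le (Z F) (fun ρ => ‖(t : ℂ) - ρ‖) (fun ρ => ‖(R : ℂ) - ρ‖) (fun _ => 12)
        (fun _ => norm_nonneg _) (by
          intro ρ hρ
          have g1 := hZF ρ hρ
          obtain ⟨g2, _⟩ := near ρ (hZFP ρ hρ) (lt_of_le_of_lt g1 hRε)
          have g3 : R ≤ ‖(R : ℂ) - ρ‖ := by
            have : ((R : ℂ) - ρ).re ≤ ‖(R : ℂ) - ρ‖ := Complex.re_le_norm _
            rw [Complex.sub_re, Complex.ofReal_re] at this
            linarith
          have g4 : ‖(t : ℂ) - ρ‖ ≤ t + R := by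
            refine (norm_sub_le _ _).trans ?_
            rw [Complex.norm_real, Real.norm_of_nonneg ht0.le]
            linarith
          have g5 : (131072 : ℝ) ≤ Real.exp 12 := by
            have a1 : Real.exp 12 = Real.exp 1 ^ 12 := by
              rw [← Real.exp_nat_mul]
              norm_num
            rw [a1]
            have a2 : (2.718 : ℝ) ≤ Real.exp 1 := by
              have := Real.exp_one_gt_d9
              linarith
            have a3 := pow_le_pow_left₀ (by norm_num) a2 12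
            refine le_trans ?_ a3
            norm_num
          calc ‖(t : ℂ) - ρ‖ ≤ t + R := g4
            _ ≤ R * 131072 := by rw [ht]; linarith
            _ ≤ ‖(R : ℂ) - ρ‖ * Real.exp 12 := mul_le_mul g3 g5 (by norm_num) (norm_nonneg _))
      have f2 := prod_le (Z B) (fun ρ => ‖(t : ℂ) - ρ‖) (fun ρ => ‖(R : ℂ) - ρ‖)
        (fun ρ => 2 * t * ‖ρ‖⁻¹)
        (fun _ => norm_nonneg _) (by
          intro ρ hρ
          have g1 := hZB ρ hρ
          have gp : 0 < ‖ρ‖ := hR.trans g1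
          have g2 : ‖ρ‖ / 2 ≤ ‖(R : ℂ) - ρ‖ := by
            by_cases hc : ‖ρ‖ < ε
            · obtain ⟨g3, g4⟩ := near ρ (hZBP ρ hρ) hc
              have g5 := sector g3 g4
              have : ((R : ℂ) - ρ).re ≤ ‖(R : ℂ) - ρ‖ := Complex.re_le_norm _
              rw [Complex.sub_re, Complex.ofReal_re] at this
              linarith
            · push Not at hc
              have : ‖ρ‖ - ‖(R : ℂ)‖ ≤ ‖(R : ℂ) - ρ‖ := by
                rw [norm_sub_rev]
                exact norm_sub_norm_le _ _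
              rw [Complex.norm_real, Real.norm_of_nonneg hR.le] at this
              have : R ≤ ε / 2 := by
                rw [hRd]
                linarith
              linarith
          have g6 : ‖(t : ℂ) - ρ‖ ≤ ‖(R : ℂ) - ρ‖ + (t - R) := by
            have a1 : (t : ℂ) - ρ = ((R : ℂ) - ρ) + ((t - R : ℝ) : ℂ) := by
              push_cast
              ring
            rw [a1]
            refine (norm_add_le _ _).trans ?_
            rw [Complex.norm_real, Real.norm_of_nonneg (by rw [ht]; linarith)]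
          have g7 : (1 : ℝ) + 2 * t * ‖ρ‖⁻¹ ≤ Real.exp (2 * t * ‖ρ‖⁻¹) := by
            have := Real.add_one_le_exp (2 * t * ‖ρ‖⁻¹)
            linarith
          have g8 : t ≤ ‖(R : ℂ) - ρ‖ * (2 * t * ‖ρ‖⁻¹) := by
            have a1 : t = ‖ρ‖ / 2 * (2 * t * ‖ρ‖⁻¹) := by field_simp
            calc t = ‖ρ‖ / 2 * (2 * t * ‖ρ‖⁻¹) := a1
              _ ≤ _ := mul_le_mul_of_nonneg_right g2 (by positivity)
          calc ‖(t : ℂ) - ρ‖ ≤ ‖(R : ℂ) - ρ‖ + (t - R) := g6
            _ ≤ ‖(R : ℂ) - ρ‖ * (1 + 2 * t * ‖ρ‖⁻¹) := by rw [mul_add, mul_one]; linarith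
            _ ≤ _ := mul_le_mul_of_nonneg_left g7 (norm_nonneg _))
      have f3 : ((Z F).map fun _ : ℂ => (12 : ℝ)).sum = 12 * (Z F).card := by
        rw [Multiset.map_const', Multiset.sum_replicate, nsmul_eq_mul, mul_comm]
      have f4 : ((Z B).map fun ρ => 2 * t * ‖ρ‖⁻¹).sum = 2 * t * S := by
        rw [Multiset.sum_map_mul_left]
      rw [f3] at f1
      rw [f4] at f2
      have f5 : 0 ≤ ((Z B).map fun ρ => ‖(t : ℂ) - ρ‖).prod := Multiset.prod_nonneg (by
        intro x hx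
        obtain ⟨y, _, rfl⟩ := Multiset.mem_map.1 hx
        exact norm_nonneg _)
      have f6 : 0 ≤ ((Z F).map fun ρ => ‖(R : ℂ) - ρ‖).prod := Multiset.prod_nonneg (by
        intro x hx
        obtain ⟨y, _, rfl⟩ := Multiset.mem_map.1 hx
        exact norm_nonneg _)
      refine (mul_le_mul f1 f2 f5 (by positivity)).trans (le_of_eq (by ring))
    rw [e1, e2, mul_assoc]
    exact mul_le_mul_of_nonneg_left e3 (norm_nonneg _)
  -- lower bound of the far sum
  have hSlow : 13 * (L * √R) ≤ 2 * t * S := by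
    have h1 := (lo t ht0 (by linarith)).trans (hratio.trans
      (mul_le_mul_of_nonneg_right (hi R hR (by linarith)) (Real.exp_pos _).le))
    rw [← Real.exp_add, Real.exp_le_exp] at h1
    have h2 := le_A ht0.le ht1
    have h3 := A_le hR.le
    rw [hts] at h2
    have h4 : (L : ℝ) * (256 * √R / 4) ≤ L * A t := mul_le_mul_of_nonneg_left h2 hL0
    have h5 : (L : ℝ) * A R ≤ L * (√R / 2) := mul_le_mul_of_nonneg_left h3 hL0
    have h6 : E ≤ L * √R := by
      rw [hRs]
      have : (L : ℝ) * (u / 10 ^ 6) = L * u / 10 ^ 6 := by ring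
      rw [this, le_div_iff₀ (by norm_num)]
      linarith
    linarith
  -- the roots beyond ε
  set T : ℝ := ((Z B).map fun ρ => if ε ≤ ‖ρ‖ then ‖ρ‖⁻¹ else 0).sum with hT
  have hTle : ε * T ≤ 16 * (L * u) := by
    have h1 : ((Z B).map fun ρ => ε * (if ε ≤ ‖ρ‖ then ‖ρ‖⁻¹ else 0)).sum ≤
        ((Z B).map fun ρ => min 1 (ε / ‖ρ‖)).sum := by
      refine Multiset.sum_map_le_sum_map _ _ fun ρ hρ => ?_
      have gp : 0 < ‖ρ‖ := hR.trans (hZB ρ hρ)
      split_ifs with hc
      · refine le_min ?_ ?_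
        · rw [← div_eq_mul_inv, div_le_one gp]
          exact hc
        · rw [div_eq_mul_inv]
      · rw [mul_zero]
        exact le_min zero_le_one (by positivity)
    rw [Multiset.sum_map_mul_left] at h1
    have h2 : ((Z B).map fun ρ => min 1 (ε / ‖ρ‖)).sum ≤ M P ε := by
      unfold M
      rw [hZ, Multiset.map_add, Multiset.sum_add]
      have : 0 ≤ ((Z F).map fun ρ => min 1 (ε / ‖ρ‖)).sum := Multiset.sum_nonneg (by
        intro x hx
        obtain ⟨y, _, rfl⟩ := Multiset.mem_map.1 hx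
        exact le_min zero_le_one (by positivity))
      linarith
    have h3 := M_le (by linarith) hN hi hε
    rw [← hu] at h3
    have h4 : E ≤ L * u := by linarith
    linarith
  -- the comparison of the two sums
  have hTS : 6 * T ≤ S := by
    have h1 : ε = 10 ^ 12 * R := by
      rw [hRd]
      ring
    rw [h1] at hTle
    rw [ht] at hSlow
    rw [hRs] at hSlow
    have h2 : R * (6 * T) ≤ R * S := by
      have a1 : R * (6 * T) = 6 / 10 ^ 12 * (10 ^ 12 * R * T) := by ring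
      have a2 : R * S = 1 / 131072 * (2 * (65536 * R) * S) := by ring
      rw [a1, a2]
      have a3 : (6 : ℝ) / 10 ^ 12 * (10 ^ 12 * R * T) ≤ 6 / 10 ^ 12 * (16 * (L * u)) :=
        mul_le_mul_of_nonneg_left hTle (by positivity)
      have a4 : (1 : ℝ) / 131072 * (13 * (L * (u / 10 ^ 6))) ≤
          1 / 131072 * (2 * (65536 * R) * S) := mul_le_mul_of_nonneg_left hSlow (by positivity)
      refine a3.trans (le_trans ?_ a4)
      have a5 : 0 ≤ (L : ℝ) * u := by positivity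
      have a6 : (1 : ℝ) / 131072 * (13 * (L * (u / 10 ^ 6))) = (13 / 131072 / 10 ^ 6) * (L * u) := by
        ring
      have a7 : (6 : ℝ) / 10 ^ 12 * (16 * (L * u)) = (96 / 10 ^ 12) * (L * u) := by ring
      rw [a6, a7]
      exact mul_le_mul_of_nonneg_right (by norm_num) a5
    exact le_of_mul_le_mul_left h2 hR
  have hlamB : S / 4 ≤ ((Z B).map fun ρ => (-ρ⁻¹).re).sum := by
    have h1 : ((Z B).map fun ρ => (1 / 2 * ‖ρ‖⁻¹ + -(3 / 2) * (if ε ≤ ‖ρ‖ then ‖ρ‖⁻¹ else 0))).sum ≤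
        ((Z B).map fun ρ => (-ρ⁻¹).re).sum := by
      refine Multiset.sum_map_le_sum_map _ _ fun ρ hρ => ?_
      have gp : 0 < ‖ρ‖ := hR.trans (hZB ρ hρ)
      split_ifs with hc
      · have a1 := (abs_le.1 (Complex.abs_re_le_norm (-ρ⁻¹))).1
        rw [norm_neg, norm_inv] at a1
        linarith
      · push Not at hc
        obtain ⟨g3, g4⟩ := near ρ (hZBP ρ hρ) hc
        have g5 := sector g3 g4
        rw [re_neg_inv, mul_zero, add_zero, le_div_iff₀ (by positivity)]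
        have a1 : 1 / 2 * ‖ρ‖⁻¹ * ‖ρ‖ ^ 2 = ‖ρ‖ / 2 := by field_simp
        rw [a1]
        linarith
    rw [Multiset.sum_map_add, Multiset.sum_map_mul_left, Multiset.sum_map_mul_left] at h1
    linarith
  have hSpos : 0 < S := by
    have h1 : 0 < L * √R := by
      rw [hRs]
      have : (0 : ℝ) < L * u := by linarith
      have h2 : (L : ℝ) * (u / 10 ^ 6) = L * u / 10 ^ 6 := by ring
      rw [h2]
      positivity
    have h2 : 0 < 2 * t * S := by linarith
    exact (pos_iff_pos_of_mul_pos h2).1 (by positivity)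
  -- the constant term of the far factor
  have hB00 : B.coeff 0 ≠ 0 := by
    intro h0
    have h2 : aeval (0 : ℂ) B = 0 := by
      rw [← Polynomial.coeff_zero_eq_aeval_zero' B, h0, map_zero]
    have h1 := hB 0 h2
    rw [norm_zero] at h1
    linarith
  have hB0pos : 0 < B.coeff 0 := by
    have h1 : P.coeff 0 = F.coeff 0 * B.coeff 0 := by
      rw [hFB, Polynomial.mul_coeff_zero]
    have h2 := hN.one
    have h3 : 0 ≤ F.coeff 0 := by
      have := hTP.1 ((0 : ℕ) : ℤ)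
      rwa [Pool.Agent.Helper76.Conway.cz_natCast] at this
    rcases h3.lt_or_eq with h4 | h4
    · exact (pos_iff_pos_of_mul_pos (by rw [← h1]; linarith)).1 h4
    · rw [h1, ← h4, zero_mul] at h2
      linarith
  obtain ⟨p1, p2⟩ := far_lc hB0pos (R := R) (q := 4) (lam := S / 4) hR (by norm_num)
    (by positivity) (fun ρ h => (hZB ρ h).le) (by
      have : ((Z B).map fun ρ => ‖-ρ⁻¹‖) = (Z B).map fun ρ => ‖ρ‖⁻¹ :=
        Multiset.map_congr rfl fun ρ _ => by rw [norm_neg, norm_inv]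
      rw [this, ← hS]
      linarith) hlamB (j := k) (by
      rw [ht, hRs] at hSlow
      have a1 : (L : ℝ) * (u / 10 ^ 6) = (1 / 10 ^ 6) * (L * u) := by ring
      rw [a1] at hSlow
      have a2 : 2 * (65536 * R) * S = 524288 * (R * (S / 4)) := by ring
      rw [a2] at hSlow
      linarith)
  rw [hFB]
  exact lc_mul hTP p1 p2 hk le_rfl

/-- **Low coefficients**, for one polynomial with `HP`. -/
theorem low {b κ ε E : ℝ} {L : ℕ} {P : ℝ[X]} (hA : Pool.Agent.Helper10.PC.AdmP b κ ε E)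
    (hP : Pool.Agent.Helper10.PC.HP b κ ε E L P) (hEL : 10 ^ 13 * E ≤ L * √ε) {k : ℕ} (hk : 1 ≤ k)
    (hkL : 10 ^ 13 * k ≤ L * √ε) : P.coeff (k - 1) * P.coeff (k + 1) ≤ P.coeff k ^ 2 := by
  refine lowP hA.hE hA.hε hA.hε1 hP.toNice hP.near hP.lo (fun r h1 h2 => ?_) hEL hk hkL
  have h3 := hP.hi r 0 h1 h2 (by rw [abs_zero]; exact Real.pi_pos.le)
  have e1 : aeval (pt r 0) P = ((P.eval r : ℝ) : ℂ) := by
    unfold pt
    rw [Complex.ofReal_zero, zero_mul, Complex.exp_zero, mul_one]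
    exact aeval_algebraMap_apply_eq_algebraMap_eval r P
  have h4 : 0 ≤ P.eval r := (Real.exp_pos _).le.trans (hP.lo r h1 h2)
  rw [e1, Complex.norm_real, Real.norm_of_nonneg h4, Real.cos_zero, sub_self, mul_zero,
    sub_zero] at h3
  exact h3

end Pool.Agent.Helper13.PC
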